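import Pool.Agent.P.MP_c76d8c_an.AL.Split
import Pool.Agent.P.MP_c76d8c_an.AA.All

/-! The last steps of the argument, for all integers, from a zero free half plane. -/

namespace Pool.Agent.P.MP_c76d8c_an.AL

open Finset Matrix MeasureTheory
open Pool.Agent.P.MP_26a8c3_nt.QE Pool.Agent.P.MP_c76d8c_an.AA

/-- the standing hypotheses hold for all large integers -/
def T_Good : Prop :=
  ∀ τ : ℝ, 0 < τ → ∃ n0 : ℕ, ∀ n : ℕ, n0 ≤ n → ∀ D : ℝ, √(n : ℝ) ^ τ ≤ D →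
    D ^ 50 ≤ √(n : ℝ) → Good n D

/-- the large spectrum is small -/
def T_Iter : Prop :=
  ∃ b τ0 : ℝ, 0 < b ∧ b ≤ 1 ∧ 0 < τ0 ∧ ∀ τ : ℝ, 0 < τ → τ ≤ τ0 → ∃ n0 : ℕ, ∀ n : ℕ, n0 ≤ n →
    ((Sph n).card : ℝ) ≤ √(n : ℝ) * √(n : ℝ) ^ τ ∧
      ∀ (Q : ℕ) [Fact Q.Prime], √(n : ℝ) ≤ Q → (Q : ℝ) ≤ 4 * √(n : ℝ) →
        Bd n Q (√(n : ℝ) ^ τ) (√(n : ℝ) ^ (6 * τ ^ b))

/-- the moment bound on the grid -/
def T_Fin : Prop :=
  ∃ b B : ℝ, 0 < b ∧ ∀ p : ℝ, 2 ≤ p → ∃ C : ℝ, 0 < C ∧ ∀ n : ℕ, 1 ≤ n →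
    ∃ (Q : ℕ) (_ : NeZero Q), ∀ (S : Finset (Fin 3 → ℤ)) (c : (Fin 3 → ℤ) → ℂ),
      (∀ b ∈ S, b ⬝ᵥ b = n) → av (fun x : Fin 3 → ZMod Q => ‖fs id c S x‖ ^ p) ≤
        C * (√(n : ℝ) ^ (1 / 2 - 3 / p + B * p ^ (-1 - b)) * nr c S) ^ p

theorem good {θ : ℝ} (hθ : θ < 1) (hZ : ZF θ) : T_Good := by
  intro τ hτ
  obtain ⟨A, hA⟩ := exists_nat_ge (2 / τ)
  obtain ⟨X₀, hsp⟩ := split hθ hZ A
  have t4 : 0 < τ / 4 := by positivity
  obtain ⟨C, hC, hc⟩ := circ_exists t4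
  obtain ⟨n0, h0⟩ := Filter.eventually_atTop.1 (((tendsto_rpow_atTop t4).comp
    tendsto_natCast_atTop_atTop).eventually_ge_atTop (3 * C + 2 ^ 13 + 16 / τ + 2 + X₀))
  refine ⟨max n0 1, fun n hn D hD h50 => ?_⟩
  have n1 : 1 ≤ n := (le_max_right _ _).trans hn
  have n1' : (0 : ℝ) < n := by exact_mod_cast n1
  have hu := h0 n ((le_max_left _ _).trans hn)
  simp only [Function.comp] at hu
  have ht : 0 < 16 / τ := by positivity
  have hX₀ : (0 : ℝ) ≤ X₀ := Nat.cast_nonneg _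
  set u := (n : ℝ) ^ (τ / 4) with hu'
  have u1 : 1 ≤ u := by linarith
  have hD' : u * u ≤ D := by
    refine le_of_eq_of_le ?_ hD
    rw [hu', ← Real.rpow_add n1', Real.sqrt_eq_rpow, ← Real.rpow_mul n1'.le]
    ring_nf
  have key : ∀ a : ℝ, a ≤ u → a * u ≤ D := fun a ha =>
    (mul_le_mul_of_nonneg_right ha (by linarith)).trans hD'
  have d13 : 2 ^ 13 ≤ D :=
    (le_mul_of_one_le_right (by positivity) u1).trans (key _ (by linarith))
  have d1 : 1 ≤ D := le_trans (by norm_num) d13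
  have hk : (Nat.log 2 (n ^ 2) : ℝ) + 2 ≤ D := by
    have a1 := GoodP.natlog_le (Nat.one_le_pow 2 n n1)
    rw [Nat.cast_pow, Real.log_pow] at a1
    have a2 : Real.log u = τ / 4 * Real.log n := Real.log_rpow n1' _
    have a3 : Real.log u ≤ u := (Real.log_le_sub_one_of_pos (by linarith)).trans (by linarith)
    have a4 : 4 * Real.log n ≤ 16 / τ * u := by
      refine le_of_eq_of_le ?_ (mul_le_mul_of_nonneg_left a3 ht.le)
      rw [a2]
      field_simp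
      ring
    have a5 := key (16 / τ + 2) (by linarith)
    push_cast at a1
    linarith
  refine ⟨d13, h50, ?_, fun d h1 h2 s F hF => (hc n n1 d h1 h2 s F hF).trans (key C (by linarith)),
    ⟨Nat.log 2 (n ^ 2) + 1, Nat.lt_pow_succ_log_self one_lt_two _, by push_cast; linarith⟩, ?_⟩
  · refine (card_sphere_le' n1 (by positivity) (hc n n1) fun b hb => mem_Sph.1 hb).trans ?_
    have := mul_le_mul_of_nonneg_left (key (3 * C) (by linarith)) (Real.sqrt_nonneg n)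
    linarith
  have d0 : 0 < D := by linarith
  have d8 : 1 ≤ D ^ 8 := one_le_pow₀ d1
  have f1 : D ^ 8 ≤ (⌊D ^ 9⌋₊ : ℝ) := by
    have a1 := Nat.lt_floor_add_one (D ^ 9)
    have a2 : 2 * D ^ 8 ≤ D * D ^ 8 := mul_le_mul_of_nonneg_right (by linarith) (by linarith)
    have a3 : D * D ^ 8 = D ^ 9 := by ring
    linarith
  have f2 : D ≤ (⌊D ^ 9⌋₊ : ℝ) := (le_self_pow₀ d1 (by norm_num)).trans f1
  have f3 : (X₀ : ℝ) ≤ D :=
    (le_mul_of_one_le_right hX₀ u1).trans (key _ (by linarith))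
  have f4 : (n : ℝ) ≤ D ^ A := by
    have s1 : 1 ≤ √(n : ℝ) := Real.one_le_sqrt.2 (by exact_mod_cast n1)
    calc (n : ℝ) = √(n : ℝ) ^ (2 : ℝ) := by rw [Real.rpow_two, Real.sq_sqrt n1'.le]
      _ ≤ √(n : ℝ) ^ (τ * A) := Real.rpow_le_rpow_of_exponent_le s1 (by
          rw [div_le_iff₀ hτ] at hA; linarith)
      _ = (√(n : ℝ) ^ τ) ^ A := Real.rpow_mul_natCast (by linarith) _ _
      _ ≤ D ^ A := pow_le_pow_left₀ (by positivity) hD A
  obtain ⟨L, l1, l2⟩ := hsp n ⌊D ^ 9⌋₊ n1 (by exact_mod_cast f3.trans f2)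
    (f4.trans (pow_le_pow_left₀ d0.le f2 A))
  refine ⟨⌊D ^ 9⌋₊, L, Nat.floor_le (by positivity), le_trans ?_ l1, l2⟩
  exact Real.le_sqrt_of_sq_le (le_of_eq_of_le (by ring) f1)

theorem iter (h1 : S_Rec) (h2 : T_Good) : T_Iter := by
  have l1 : 0 < Real.log (2322 / 2321) := Real.log_pos (by norm_num)
  have l2 : 0 < Real.log 126 := Real.log_pos (by norm_num)
  have l3 : Real.log (2322 / 2321) ≤ Real.log 126 := Real.log_le_log (by norm_num) (by norm_num)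
  set b := Real.log (2322 / 2321) / (2 * Real.log 126) with hb
  have hb0 : 0 < b := by positivity
  have hb1 : b ≤ 1 / 2 := by rw [hb, div_le_iff₀ (by positivity)]; linarith
  have hA : ((126 : ℝ) ^ 2) ^ b = 2322 / 2321 := by
    rw [Real.rpow_def_of_pos (by norm_num), Real.log_pow, hb]
    push_cast
    rw [mul_div_cancel₀ _ (by positivity), Real.exp_log (by norm_num)]
  refine ⟨b, 1 / 2500, hb0, by linarith, by norm_num, fun τ hτ hτ' => ?_⟩
  obtain ⟨n0, hg⟩ := h2 τ hτ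
  refine ⟨max n0 4096, fun n hn => ?_⟩
  have hN : 64 ≤ √(n : ℝ) := Real.le_sqrt_of_sq_le (by exact_mod_cast le_of_max_le_right hn)
  have hN1 : 1 ≤ √(n : ℝ) := by linarith
  have hg' := hg n (le_of_max_le_left hn)
  refine ⟨(hg' _ le_rfl (IterP.pow_le hN1 (by linarith))).2.2.1, fun Q _ hQ hQ' => ?_⟩
  obtain ⟨j, j1, j2⟩ := exists_nat_pow_near (x := 1 / τ) (y := (126 : ℝ) ^ 2)
    (by rw [le_div_iff₀ hτ]; linarith) (by norm_num)
  have s0 : 0 < √τ := Real.sqrt_pos.2 hτ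
  have s1 : √τ * √τ = τ := Real.mul_self_sqrt hτ.le
  have s2 : √τ ≤ 1 / 50 := Real.sqrt_le_iff.2 ⟨by norm_num, by linarith⟩
  have k1 : 126 ^ j * √τ ≤ 1 := by
    rw [le_div_iff₀ hτ, ← pow_mul, mul_comm 2 j, pow_mul] at j1
    refine pow_le_one_iff_of_nonneg (by positivity) two_ne_zero |>.1 ?_
    rwa [mul_pow, Real.sq_sqrt hτ.le]
  have k2 : 126 ^ j * τ ≤ √τ := by
    calc 126 ^ j * τ = 126 ^ j * √τ * √τ := by rw [mul_assoc, s1]
      _ ≤ 1 * √τ := by gcongr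
      _ = _ := one_mul _
  have k3 : √τ ≤ τ ^ b := by
    rw [Real.sqrt_eq_rpow]
    exact Real.rpow_le_rpow_of_exponent_ge hτ (by linarith) hb1
  have k4 : (2321 / 2322 : ℝ) ^ (j + 1) ≤ τ ^ b := by
    have e : (2321 / 2322 : ℝ) ^ (j + 1) = (1 / (126 ^ 2) ^ (j + 1)) ^ b := by
      rw [Real.div_rpow zero_le_one (by positivity), Real.one_rpow, ← Real.rpow_natCast_mul
        (by positivity), mul_comm, Real.rpow_mul_natCast (by positivity), hA, ← _root_.one_div_pow]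
      norm_num
    rw [e]
    refine Real.rpow_le_rpow (by positivity) ?_ hb0.le
    rw [div_lt_iff₀ hτ] at j2
    rw [div_le_iff₀ (by positivity)]
    linarith
  refine (IterP.ind h1 hτ hN hQ hQ' hg' j τ le_rfl (by linarith)).mono (by positivity) le_rfl
    (Real.rpow_le_rpow_of_exponent_le hN1 ?_)
  have hθ : (0 : ℝ) ≤ (2321 / 2322 : ℝ) ^ j := by positivity
  rw [pow_succ] at k4
  linarith

open FinP in
theorem fin (h1 : T_Iter) (h2 : S_TT) : T_Fin := by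
  obtain ⟨b, τ0, hb, hb1, hτ0, h1⟩ := h1
  refine ⟨b, 49 + 18 / τ0, hb, fun p hp => ?_⟩
  have hp0 : 0 < p := by linarith
  obtain ⟨q, hq⟩ : ∃ q, q = p ^ (-b) := ⟨_, rfl⟩
  have hq0 : 0 < q := by rw [hq]; positivity
  have hq1 : 1 / p ≤ q := by
    rw [hq, one_div, ← Real.rpow_neg_one]
    exact Real.rpow_le_rpow_of_exponent_le (by linarith) (by linarith)
  have hB : 0 ≤ 18 / τ0 * q := by positivity
  obtain ⟨A, hA, hT⟩ := triv hp0 hq0
  have tgt : ∀ N M : ℝ, 0 < N → 0 ≤ M →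
      (N ^ (1 / 2 - 3 / p + (49 + 18 / τ0) * p ^ (-1 - b)) * M) ^ p =
        N ^ (p / 2 - 3 + (49 + 18 / τ0) * q) * M ^ p := fun N M hN hM => by
    rw [Real.mul_rpow (by positivity) hM, ← Real.rpow_mul hN.le, hq, sub_eq_add_neg (-1),
      Real.rpow_add hp0, Real.rpow_neg_one]
    congr 2
    field_simp
  have hN1 : ∀ n : ℕ, 1 ≤ n → 1 ≤ √(n : ℝ) := fun n hn =>
    Real.one_le_sqrt.2 (by exact_mod_cast hn)
  by_cases hτ : 6 / p ≤ τ0
  · obtain ⟨n0, h1⟩ := h1 (6 / p) (by positivity) hτ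
    refine ⟨A * ((n0 : ℝ) ^ 3 + 1) + 2 ^ (p / 2), by positivity, fun n hn => ?_⟩
    have hN := hN1 n hn
    have hN0 : 0 < √(n : ℝ) := by linarith
    have mono : ∀ s t : ℝ, s ≤ t → √(n : ℝ) ^ s ≤ √(n : ℝ) ^ t := fun s t h =>
      Real.rpow_le_rpow_of_exponent_le hN h
    by_cases hn0 : n0 ≤ n
    · obtain ⟨Q, hQ, q1, q2⟩ := exists_prime hn
      have : Fact Q.Prime := ⟨hQ⟩
      obtain ⟨a1, a2⟩ := h1 n hn0
      refine ⟨Q, inferInstance, fun S c hS => ?_⟩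
      have hD : 0 < √(n : ℝ) ^ (6 / p) := by positivity
      have hM := nr_nonneg c S
      have hMp : 0 ≤ nr c S ^ p := by positivity
      have a3 := av_split (fun x : Fin 3 → ZMod Q => ‖fs id c S x‖ ^ p)
        (fun x => 2 * √(n : ℝ) / √(n : ℝ) ^ (6 / p) * ms c S ≤ ‖fs id c S x‖ ^ 2)
        (T₂ := (2 * √(n : ℝ) / √(n : ℝ) ^ (6 / p)) ^ (p / 2) * nr c S ^ p) (by positivity)
        (hT n hn Q S c hS) fun x hx =>
          pw (norm_nonneg _) (by positivity) hM hp0.le (by rw [nr_sq]; exact (not_le.1 hx).le)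
      have a4 : ((univ.filter fun x : Fin 3 → ZMod Q => 2 * √(n : ℝ) / √(n : ℝ) ^ (6 / p) *
          ms c S ≤ ‖fs id c S x‖ ^ 2).card : ℝ) * nr c S ^ p ≤ √(n : ℝ) ^ (48 * q) * nr c S ^ p := by
        rcases (ms_nonneg c S).eq_or_lt with h0 | h0
        · rw [nr, ← h0, Real.sqrt_zero, Real.zero_rpow hp0.ne', mul_zero, mul_zero]
        refine mul_le_mul_of_nonneg_right
          ((h2 n Q _ _ hn hD a1 (a2 Q q1 q2) S c hS h0).trans ?_) hMp
        rw [← Real.rpow_two, ← Real.rpow_mul hN0.le, ← Real.rpow_add hN0]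
        refine mono _ _ ?_
        have b1 : (6 / p) ^ b ≤ 6 * q := by
          rw [Real.div_rpow (by norm_num) hp0.le, hq, Real.rpow_neg hp0.le, div_eq_mul_inv]
          refine mul_le_mul_of_nonneg_right ?_ (by positivity)
          simpa using Real.rpow_le_rpow_of_exponent_le (by norm_num : (1 : ℝ) ≤ 6) hb1
        have b2 : 6 / p = 6 * (1 / p) := by ring
        linarith
      have a5 : √(n : ℝ) ^ (3 : ℝ) ≤ (Fintype.card (Fin 3 → ZMod Q) : ℝ) := by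
        rw [Fintype.card_fun, ZMod.card, Fintype.card_fin, Nat.cast_pow, Real.rpow_ofNat]
        exact pow_le_pow_left₀ hN0.le q1 3
      have a6 : (2 * √(n : ℝ) / √(n : ℝ) ^ (6 / p)) ^ (p / 2) =
          2 ^ (p / 2) * √(n : ℝ) ^ (p / 2 - 3) := by
        rw [mul_div_assoc, Real.mul_rpow (by norm_num) (by positivity),
          Real.div_rpow hN0.le hD.le, ← Real.rpow_mul hN0.le, ← Real.rpow_sub hN0]
        congr 3
        field_simp
        norm_num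
      rw [tgt _ _ hN0 hM]
      refine a3.trans ?_
      rw [a6, add_mul]
      refine add_le_add ?_ ?_
      · calc _ = A * √(n : ℝ) ^ (p / 2 + q) * (_ * nr c S ^ p) /
              (Fintype.card (Fin 3 → ZMod Q) : ℝ) := by ring
          _ ≤ A * √(n : ℝ) ^ (p / 2 + q) * (√(n : ℝ) ^ (48 * q) * nr c S ^ p) /
              √(n : ℝ) ^ (3 : ℝ) := by gcongr
          _ = A * 1 * (√(n : ℝ) ^ (p / 2 + q + 48 * q - 3) * nr c S ^ p) := by
              rw [Real.rpow_sub hN0, Real.rpow_add hN0 (p / 2 + q)]; ring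
          _ ≤ _ := by
              gcongr
              · linarith [pow_nonneg (Nat.cast_nonneg (α := ℝ) n0) 3]
              · linarith
      · rw [mul_assoc]
        gcongr
        linarith
    · refine ⟨1, inferInstance, fun S c hS => ?_⟩
      have hM := nr_nonneg c S
      have a1 : √(n : ℝ) ^ (3 : ℝ) ≤ (n0 : ℝ) ^ 3 := by
        rw [Real.rpow_ofNat]
        refine pow_le_pow_left₀ hN0.le (Real.sqrt_le_iff.2 ⟨by positivity, ?_⟩) 3
        exact_mod_cast (by nlinarith : n ≤ n0 ^ 2)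
      rw [tgt _ _ hN0 hM]
      refine ((av_mono (hT n hn 1 S c hS)).trans (av_const _).le).trans ?_
      calc _ = A * √(n : ℝ) ^ (3 : ℝ) * (√(n : ℝ) ^ (p / 2 + q - 3) * nr c S ^ p) := by
            rw [Real.rpow_sub hN0]; field_simp
        _ ≤ A * ((n0 : ℝ) ^ 3 + 1) *
            (√(n : ℝ) ^ (p / 2 - 3 + (49 + 18 / τ0) * q) * nr c S ^ p) := by
            gcongr
            · linarith
            · linarith
        _ ≤ _ := by gcongr; exact le_add_of_nonneg_right (by positivity)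
  · refine ⟨A, hA, fun n hn => ⟨1, inferInstance, fun S c hS => ?_⟩⟩
    have hN := hN1 n hn
    have hM := nr_nonneg c S
    have a1 : 3 ≤ 18 / τ0 * q := by
      rw [div_mul_eq_mul_div, le_div_iff₀ hτ0]
      have b2 : 6 / p = 6 * (1 / p) := by ring
      linarith [not_le.1 hτ]
    rw [tgt _ _ (by linarith) hM]
    refine ((av_mono (hT n hn 1 S c hS)).trans (av_const _).le).trans ?_
    rw [mul_assoc]
    refine mul_le_mul_of_nonneg_left (mul_le_mul_of_nonneg_right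
      (Real.rpow_le_rpow_of_exponent_le hN (by linarith)) (by positivity)) hA.le

theorem transfer (hF : T_Fin) : ∃ b B : ℝ, 0 < b ∧ ∀ p : ℝ, 2 ≤ p → ∃ C : ℝ, ∀ n : ℕ, 1 ≤ n →
    ∀ S : Finset (Fin 3 → ℤ), (∀ ξ ∈ S, ∑ j, (ξ j) ^ 2 = (n : ℤ)) →
    ∀ a : (Fin 3 → ℤ) → ℂ,
      (∫ x in Set.univ.pi (fun _ : Fin 3 => Set.Icc (0 : ℝ) (2 * Real.pi)),
          ‖∑ ξ ∈ S, a ξ * Complex.exp (Complex.I * ∑ j, ((ξ j : ℂ) * ((x j : ℝ) : ℂ)))‖ ^ p)
          ^ (1 / p)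
        ≤ C * (Real.sqrt (n : ℝ)) ^ (1 / 2 - 3 / p + B * p ^ (-1 - b)) *
          (∫ x in Set.univ.pi (fun _ : Fin 3 => Set.Icc (0 : ℝ) (2 * Real.pi)),
            ‖∑ ξ ∈ S, a ξ * Complex.exp (Complex.I * ∑ j, ((ξ j : ℂ) * ((x j : ℝ) : ℂ)))‖ ^ (2 : ℝ))
            ^ (1 / 2 : ℝ) := by
  have hT : Fact (0 < 2 * Real.pi) := ⟨Real.two_pi_pos⟩
  obtain ⟨b, B, hb, h0⟩ := hF
  refine ⟨b, B, hb, fun p hp => ?_⟩
  obtain ⟨C, hC, h⟩ := h0 p hp
  refine ⟨((2 * Real.pi) ^ 3 * C) ^ (1 / p), fun n hn S hS a => ?_⟩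
  have hS' : ∀ b ∈ S, b ⬝ᵥ b = n := fun b hb => by
    rw [← hS b hb, dotProduct]; simp only [sq]
  obtain ⟨Q, hQ, h1⟩ := h n hn
  have e : ∀ x : Fin 3 → ℝ,
      ∑ ξ ∈ S, a ξ * Complex.exp (Complex.I * ∑ j, ((ξ j : ℂ) * ((x j : ℝ) : ℂ))) =
        U S a fun l => (x l : AddCircle (2 * Real.pi)) := by
    intro x
    refine sum_congr rfl fun ξ _ => ?_
    simp only [fourier_coe_apply, ← Complex.exp_sum, mul_sum]
    congr 2
    refine sum_congr rfl fun l _ => ?_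
    have : (Real.pi : ℂ) ≠ 0 := by exact_mod_cast Real.pi_ne_zero
    push_cast; field_simp
  have p0 : 0 < p := by linarith
  have hc : Continuous fun z : Fin 3 → AddCircle (2 * Real.pi) => ‖U S a z‖ ^ p :=
    (continuous_U S a).norm.rpow_const fun _ => Or.inr p0.le
  simp only [e, Real.rpow_two]
  rw [box_int hc, box_int (F := fun z => ‖U S a z‖ ^ 2) ((continuous_U S a).norm.pow 2),
    int_sq hS']
  set l := √(n : ℝ) ^ (1 / 2 - 3 / p + B * p ^ (-1 - b)) with hl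
  have l0 : 0 ≤ l := by positivity
  have s0 := nr_nonneg a S
  have h2 := int_le (Q := Q) hc (fun z => by positivity) (B := C * (l * nr a S) ^ p) fun z => by
    simp only [U_shift]
    refine (h1 S _ hS').trans (le_of_eq ?_)
    simp only [nr, ms_mod, hl]
  have pi1 : 1 ≤ (2 * Real.pi) ^ 3 := one_le_pow₀ (by linarith [Real.pi_gt_three])
  calc _ ≤ ((2 * Real.pi) ^ 3 * (C * (l * nr a S) ^ p)) ^ (1 / p) := by
        gcongr
    _ = ((2 * Real.pi) ^ 3 * C) ^ (1 / p) * l * nr a S := by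
        rw [← mul_assoc, Real.mul_rpow (by positivity) (by positivity), one_div,
          Real.rpow_rpow_inv (by positivity) p0.ne', mul_assoc]
    _ ≤ _ := by
        gcongr
        rw [← Real.sqrt_eq_rpow]
        exact Real.sqrt_le_sqrt (le_mul_of_one_le_left (ms_nonneg _ _) pi1)

theorem main {θ : ℝ} (hθ : θ < 1) (hZ : ZF θ) :
    ∃ b B : ℝ, 0 < b ∧ ∀ p : ℝ, 2 ≤ p → ∃ C : ℝ, ∀ n : ℕ, 1 ≤ n →
      ∀ S : Finset (Fin 3 → ℤ), (∀ ξ ∈ S, ∑ j, (ξ j) ^ 2 = (n : ℤ)) →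
      ∀ a : (Fin 3 → ℤ) → ℂ,
        (∫ x in Set.univ.pi (fun _ : Fin 3 => Set.Icc (0 : ℝ) (2 * Real.pi)),
            ‖∑ ξ ∈ S, a ξ * Complex.exp (Complex.I * ∑ j, ((ξ j : ℂ) * ((x j : ℝ) : ℂ)))‖ ^ p)
            ^ (1 / p)
          ≤ C * (Real.sqrt (n : ℝ)) ^ (1 / 2 - 3 / p + B * p ^ (-1 - b)) *
            (∫ x in Set.univ.pi (fun _ : Fin 3 => Set.Icc (0 : ℝ) (2 * Real.pi)),
              ‖∑ ξ ∈ S, a ξ * Complex.exp (Complex.I * ∑ j, ((ξ j : ℂ) * ((x j : ℝ) : ℂ)))‖ ^ (2 : ℝ))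
              ^ (1 / 2 : ℝ) :=
  transfer (fin (iter rec_all (good hθ hZ)) (tt cor))

end Pool.Agent.P.MP_c76d8c_an.AL
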