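import Pool.Agent.P.MP_26a8c3_nt.QE.Psi

/-! A zero free half plane gives a power saving for twisted sums of the von Mangoldt function
with only a logarithmic dependence on the modulus. -/

namespace Pool.Agent.P.MP_c76d8c_an.AL

open Finset Complex DirichletCharacter
open scoped ArithmeticFunction.vonMangoldt
open Pool.Agent.P.MP_0ad054_nt Pool.Agent.P.MP_0ad054_nt.An Pool.Agent.P.MP_26a8c3_nt.QE

theorem psiq {θ : ℝ} (hθ : θ < 1) (hZ : ZF θ) : ∃ κ C : ℝ, 0 < κ ∧ κ ≤ 1 / 2 ∧ 0 < C ∧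
    ∀ (q : ℕ) [NeZero q] (χ : DirichletCharacter ℂ q) (X : ℕ), χ ≠ 1 → 1 ≤ X →
      ‖∑ n ∈ Icc 1 X, (Λ n : ℂ) * χ n‖ ≤ C * (1 + Real.log q) * (X : ℝ) ^ (1 - κ) := by
  set ρ := min ((1 - θ) / 2) (1 / 4) with hρ
  have r0 : 0 < ρ := lt_min (by linarith) (by norm_num)
  have r1 : ρ ≤ 1 / 4 := min_le_right _ _
  have r2 : θ ≤ 1 - 2 * ρ := by linarith [min_le_left ((1 - θ) / 2) (1 / 4)]
  have r3 : 1 ≤ 16 / ρ ^ 2 := by rw [one_le_div (by positivity)]; nlinarith
  clear_value ρ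
  obtain ⟨C1, hC1, hL, -⟩ := lup (1 / 2) (by norm_num) le_rfl
  obtain ⟨C, hC, h⟩ := key r0 (by linarith)
  set D := Real.log (2 * C1 + 1) + 7 with hD
  have D7 : 7 ≤ D := by have := Real.log_nonneg (show 1 ≤ 2 * C1 + 1 by linarith); linarith
  refine ⟨ρ / 8, C * (16 / ρ ^ 2 * D), by positivity, by linarith, by positivity,
    fun q _ χ X hχ hX => ?_⟩
  have q1 : 1 ≤ q := Nat.pos_of_ne_zero (NeZero.ne q)
  have q1' : (1 : ℝ) ≤ q := by exact_mod_cast q1
  have hY : (1 : ℝ) ≤ X := by exact_mod_cast hX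
  have hd := differentiable_LFunction hχ
  have hne : ∀ z : ℂ, 1 - 2 * ρ < z.re → LFunction χ z ≠ 0 := fun z hz => by
    rcases eq_or_ne z 1 with rfl | hz1
    · exact LFunction_apply_one_ne_zero hχ
    · exact hZ q χ z (by linarith) hz1
  have lq := Real.log_nonneg q1'
  have h1 := h (fun n => (Λ n : ℂ) * χ n) (fun s => -(deriv (LFunction χ) s / LFunction χ s))
    (16 / ρ ^ 2 * D * (1 + Real.log q)) X X
    (one_le_mul_of_one_le_of_one_le (one_le_mul_of_one_le_of_one_le r3 (by linarith))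
      (by linarith)) hY le_rfl (fun n _ => ?_) (fun s hs => ?_) fun s h1 h2 => ?_
  · exact h1.trans_eq (by ring)
  · rw [norm_mul, norm_real, Real.norm_eq_abs, abs_of_nonneg ArithmeticFunction.vonMangoldt_nonneg]
    have h1 := χ.norm_le_one (n : ZMod q)
    have h2 := ArithmeticFunction.vonMangoldt_le_log (n := n)
    have h3 := ArithmeticFunction.vonMangoldt_nonneg (n := n)
    nlinarith
  · rw [deriv_LFunction_eq_deriv_LSeries χ hs, LFunction_eq_LSeries χ hs, ← neg_div,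
      ← LSeries_twist_vonMangoldt_eq χ hs]
    congr 1
    funext n
    simp [mul_comm]
  · refine ⟨((hd.deriv s).div (hd s) (hne s (by linarith))).neg, ?_⟩
    rw [norm_neg]
    refine (logder' hd r0 r1 (C := (2 * C1 + 1) * q) (by nlinarith) hne (half_le χ)
      (fun z a1 _ => (hL q χ hχ z (by linarith)).trans ?_) h1 h2).trans ?_
    · have a2 := cond_le q1 z
      have a3 := abs_nonneg z.im
      calc _ ≤ C1 * (q * (|z.im| + 3)) := by gcongr
        _ = C1 * q * (|z.im| + 3) ^ 1 := by ring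
        _ ≤ _ := by gcongr <;> [linarith; linarith; norm_num]
    · rw [Real.log_mul (by linarith) (by linarith), mul_div_right_comm, mul_assoc (16 / ρ ^ 2) D]
      gcongr
      nlinarith

end Pool.Agent.P.MP_c76d8c_an.AL
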