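import Pool.Agent.P.MP_c76d8c_an.AL.Psi
import Pool.Agent.P.MP_c76d8c_an.AA.Defs

/-! A zero free half plane gives many small split primes for every integer. -/

namespace Pool.Agent.P.MP_c76d8c_an.AL

open Finset
open scoped ArithmeticFunction.vonMangoldt
open Pool.Agent.P.MP_26a8c3_nt.QE Pool.Agent.P.MP_c76d8c_an.AA

/-- the quadratic symbol of `-n` on integers prime to `4 n` -/
noncomputable def kr (n m : ℕ) : ℂ := if m.Coprime (4 * n) then (jacobiSym (-(n : ℤ)) m : ℤ) else 0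

lemma odd_of {n m : ℕ} (h : m.Coprime (4 * n)) : Odd m :=
  Nat.coprime_two_right.1 (h.coprime_dvd_right ⟨2 * n, by ring⟩)

lemma kr_mod (n m : ℕ) : kr n (m % (4 * n)) = kr n m := by
  have e : (m % (4 * n)).Coprime (4 * n) ↔ m.Coprime (4 * n) := by
    rw [← ZMod.isUnit_iff_coprime, ← ZMod.isUnit_iff_coprime, ZMod.natCast_mod]
  unfold kr
  by_cases h : m.Coprime (4 * n)
  · rw [if_pos h, if_pos (e.2 h), jacobiSym.mod_right _ (odd_of h)]
    simp
  · rw [if_neg h, if_neg (mt e.1 h)]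

lemma kr_mul (n a b : ℕ) : kr n (a * b) = kr n a * kr n b := by
  unfold kr
  by_cases ha : a.Coprime (4 * n)
  · by_cases hb : b.Coprime (4 * n)
    · rw [if_pos ha, if_pos hb, if_pos (Nat.Coprime.mul_left ha hb),
        jacobiSym.mul_right' _ (odd_of ha).pos.ne' (odd_of hb).pos.ne']
      push_cast; ring
    · rw [if_neg hb, if_neg fun h => hb (Nat.Coprime.coprime_mul_left h), mul_zero]
  · rw [if_neg ha, if_neg fun h => ha (Nat.Coprime.coprime_mul_right h), zero_mul]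

lemma kr_last {n m : ℕ} (hm : m + 1 = 4 * n) : kr n m = -1 := by
  have hc : m.Coprime (4 * n) := by rw [← hm]; simp
  have ho := odd_of hc
  have h1 : jacobiSym (-(n : ℤ)) m = jacobiSym (-1) m := by
    have h2 := jacobiSym.mul_left 4 (-(n : ℤ)) m
    rw [jacobiSym.at_four ho, one_mul] at h2
    rw [← h2]
    refine jacobiSym.mod_left' (Int.ModEq.eq (Int.modEq_iff_dvd.2 ⟨1, by omega⟩))
  rw [kr, if_pos hc, h1, jacobiSym.at_neg_one ho, ZMod.χ₄_nat_three_mod_four (by omega)]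
  simp

lemma exists_char {n : ℕ} (hn : 1 ≤ n) : ∃ χ : DirichletCharacter ℂ (4 * n), χ ≠ 1 ∧
    ∀ p : ℕ, p.Prime → ¬ p ∣ 2 * n → ¬ Split n p → χ p = -1 := by
  have : NeZero (4 * n) := ⟨by omega⟩
  have hval : ∀ m : ℕ, kr n ((m : ZMod (4 * n)).val) = kr n m := fun m => by
    rw [ZMod.val_natCast, kr_mod]
  let χ : DirichletCharacter ℂ (4 * n) :=
    { toFun := fun x => kr n x.val
      map_one' := by
        have := hval 1
        rw [Nat.cast_one] at this
        rw [this]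
        simp [kr]
      map_mul' := fun x y => by
        obtain ⟨a, rfl⟩ := ZMod.natCast_zmod_surjective x
        obtain ⟨b, rfl⟩ := ZMod.natCast_zmod_surjective y
        rw [← Nat.cast_mul, hval, hval, hval, kr_mul]
      map_nonunit' := fun x hx => by
        obtain ⟨a, rfl⟩ := ZMod.natCast_zmod_surjective x
        rw [hval, kr, if_neg fun h => hx ((ZMod.isUnit_iff_coprime _ _).2 h)] }
  have h1 : ∀ m : ℕ, χ m = kr n m := hval
  refine ⟨χ, fun h3 => ?_, fun p hp h2 hs => ?_⟩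
  · obtain ⟨m, hm⟩ : ∃ m : ℕ, m + 1 = 4 * n := ⟨4 * n - 1, by omega⟩
    have h2 := h1 m
    rw [kr_last hm, h3, MulChar.one_apply ((ZMod.isUnit_iff_coprime _ _).2 (by rw [← hm]; simp))]
      at h2
    norm_num at h2
  · have := Fact.mk hp
    have hc : p.Coprime (4 * n) := by
      have a := (Nat.Prime.coprime_iff_not_dvd hp).2 h2
      rw [show 4 * n = 2 * (2 * n) by ring]
      exact Nat.Coprime.mul_right (a.coprime_dvd_right ⟨n, rfl⟩) a
    rw [h1, kr, if_pos hc, ZMod.nonsquare_iff_jacobiSym_eq_neg_one.2]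
    · simp
    rintro ⟨r, hr⟩
    obtain ⟨r, rfl⟩ := ZMod.intCast_surjective r
    refine hs ⟨hp, ?_, fun h => h2 (h.mul_left 2), r, ?_⟩
    · rintro rfl; exact h2 ⟨n, rfl⟩
    · rw [← ZMod.intCast_zmod_eq_zero_iff_dvd]
      push_cast at hr ⊢
      linear_combination -hr

open Classical in
/-- the counting inequality -/
lemma count {n : ℕ} (hn : 1 ≤ n) {X : ℕ} (hX : 1 ≤ X) (χ : DirichletCharacter ℂ (4 * n))
    (hχ : ∀ p : ℕ, p.Prime → ¬ p ∣ 2 * n → ¬ Split n p → χ p = -1) :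
    X * Real.log 2 - Real.log (X + 1) - ‖∑ m ∈ Icc 1 X, (Λ m : ℂ) * χ m‖ ≤
      2 * (((Icc 1 X).filter (Split n)).card * Real.log X + Real.log (2 * n) +
        2 * √X * Real.log X) := by
  have hX' : (1 : ℝ) ≤ X := by exact_mod_cast hX
  have e0 : Ioc 0 X = Icc 1 X := by ext m; simp [Nat.succ_le_iff]
  have h1 := Chebyshev.psi_ge X
  have h2 := Chebyshev.psi_sub_theta_le hX'
  rw [Chebyshev.psi_sub_theta_eq_sum_not_prime, Nat.floor_natCast, e0, sum_filter] at h2
  rw [Chebyshev.psi, Nat.floor_natCast, e0] at h1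
  have h3 : ∑ m ∈ Icc 1 X, (if m ∣ 2 * n then Λ m else 0) ≤ Real.log (2 * n) := by
    rw [← sum_filter, show (2 * n : ℝ) = (2 * n : ℕ) by push_cast; ring,
      ← ArithmeticFunction.vonMangoldt_sum]
    refine sum_le_sum_of_subset_of_nonneg (fun m hm => ?_)
      fun _ _ _ => ArithmeticFunction.vonMangoldt_nonneg
    exact Nat.mem_divisors.2 ⟨(mem_filter.1 hm).2, by omega⟩
  have h4 : ∑ m ∈ Icc 1 X, (if Split n m then Real.log X else 0) =
      ((Icc 1 X).filter (Split n)).card * Real.log X := by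
    rw [← sum_filter, sum_const, nsmul_eq_mul]
  have h5 : -‖∑ m ∈ Icc 1 X, (Λ m : ℂ) * χ m‖ ≤ ∑ m ∈ Icc 1 X, Λ m * (χ m).re := by
    have := (abs_le.1 (Complex.abs_re_le_norm (∑ m ∈ Icc 1 X, (Λ m : ℂ) * χ m))).1
    rw [Complex.re_sum] at this
    simpa using this
  have h6 : ∑ m ∈ Icc 1 X, Λ m + ∑ m ∈ Icc 1 X, Λ m * (χ m).re ≤
      2 * (∑ m ∈ Icc 1 X, (if Split n m then Real.log X else 0) +
        ∑ m ∈ Icc 1 X, (if m ∣ 2 * n then Λ m else 0) +
        ∑ m ∈ Icc 1 X, (if ¬m.Prime then Λ m else 0)) := by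
    rw [← sum_add_distrib, ← sum_add_distrib, ← sum_add_distrib, mul_sum]
    refine sum_le_sum fun m hm => ?_
    rw [mem_Icc] at hm
    have a0 := ArithmeticFunction.vonMangoldt_nonneg (n := m)
    have a1 : Λ m ≤ Real.log X := ArithmeticFunction.vonMangoldt_le_log.trans
      (Real.log_le_log (by exact_mod_cast hm.1) (by exact_mod_cast hm.2))
    have a2 : (χ m).re ≤ 1 := (Complex.re_le_norm _).trans (χ.norm_le_one _)
    have a3 : Λ m * (χ m).re ≤ Λ m := mul_le_of_le_one_right a0 a2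
    by_cases b1 : Split n m <;> by_cases b2 : m ∣ 2 * n <;> by_cases b3 : m.Prime <;>
      simp only [b1, b2, b3, if_true, if_false, not_true, not_false_iff] <;>
      first
        | linarith
        | (rw [hχ m b3 b2 b1]; simp)
  linarith

lemma num {X l u v c C A S k w a b : ℝ} (X0 : 0 < X) (l1 : 1 ≤ l) (u2 : 1 ≤ u) (v0 : 0 < v)
    (hC : 0 < C) (A0 : 0 ≤ A) (h1 : X * Real.log 2 - a - S ≤ 2 * (k * l + b + 2 * w * l))
    (a3 : a ≤ 2 * l) (a2 : b ≤ (A + 1) * l) (a4 : S ≤ C * (1 + (A + 1) * l) * u) (hk : k ≤ u)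
    (u1 : w ≤ u) (a9 : l ≤ c * v) (e1 : X = v * (v * u)) :
    v ≤ 2 * ((C * (A + 3) + 2 * A + 10) * c) := by
  have l2 := Real.log_two_gt_d9
  have l0 : 0 ≤ l := by linarith
  have b4 : S ≤ C * (A + 3) * (l * u) := by
    refine a4.trans ?_
    rw [mul_assoc C, mul_assoc C, ← mul_assoc (A + 3 : ℝ)]
    gcongr
    linarith
  have lu : l ≤ l * u := le_mul_of_one_le_right l0 u2
  have a5 : k * l ≤ l * u := by rw [mul_comm]; gcongr
  have a6 : w * l ≤ l * u := by rw [mul_comm]; gcongr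
  have a7 : (A + 1) * l ≤ (A + 1) * (l * u) := by gcongr
  have b1 : X * (1 / 2) ≤ X * Real.log 2 := by gcongr; linarith
  have a8 : X / 2 ≤ (C * (A + 3) + 2 * A + 10) * (l * u) := by linarith
  have a10 : X / 2 ≤ (C * (A + 3) + 2 * A + 10) * c * (v * u) := by
    refine a8.trans ?_
    rw [mul_assoc _ c, ← mul_assoc c]
    gcongr
  have p0 : 0 < v * u := by positivity
  refine le_of_mul_le_mul_right ?_ p0
  linarith

theorem split {θ : ℝ} (hθ : θ < 1) (hZ : ZF θ) (A : ℕ) : ∃ X₀ : ℕ, ∀ n X : ℕ, 1 ≤ n → X₀ ≤ X →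
    (n : ℝ) ≤ (X : ℝ) ^ A → ∃ L : Finset ℕ, √X ≤ L.card ∧ ∀ l ∈ L, l ≤ X ∧ Split n l := by
  classical
  obtain ⟨κ, C, k0, k1, hC, h⟩ := psiq hθ hZ
  obtain ⟨c, hc, hl⟩ := log_pow_le (show 0 < κ / 2 by positivity)
  obtain ⟨X₀, h0⟩ := Filter.eventually_atTop.1 (((tendsto_rpow_atTop (half_pos k0)).comp
    tendsto_natCast_atTop_atTop).eventually_gt_atTop (2 * ((C * (A + 3) + 2 * A + 10) * c)))
  refine ⟨max X₀ 4, fun n X hn hX hA => ⟨(Icc 1 X).filter (Split n), ?_, fun l hl => ?_⟩⟩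
  swap
  · rw [mem_filter, mem_Icc] at hl
    exact ⟨hl.1.2, hl.2⟩
  by_contra hlt
  rw [not_le] at hlt
  have : NeZero (4 * n) := ⟨by omega⟩
  obtain ⟨χ, hχ, hs⟩ := exists_char hn
  have X4 : 4 ≤ X := le_of_max_le_right hX
  have X4' : (4 : ℝ) ≤ X := by exact_mod_cast X4
  have X0 : (0 : ℝ) < X := by linarith
  have n1 : (1 : ℝ) ≤ n := by exact_mod_cast hn
  have h1 := count hn (by omega : 1 ≤ X) χ hs
  have h2 := h (4 * n) χ X hχ (by omega)
  have h3 := h0 X (le_of_max_le_left hX)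
  simp only [Function.comp] at h3
  have l4 : Real.log 4 ≤ Real.log X := Real.log_le_log (by norm_num) X4'
  have l2 := Real.log_two_gt_d9
  have e4 : Real.log 4 = 2 * Real.log 2 := by
    rw [show (4 : ℝ) = 2 ^ 2 by norm_num, Real.log_pow]; norm_num
  have l1 : 1 ≤ Real.log X := by linarith
  have ln : Real.log n ≤ A * Real.log X := by
    rw [← Real.log_pow]; exact Real.log_le_log (by linarith) hA
  have a1 : Real.log ((4 * n : ℕ) : ℝ) ≤ (A + 1) * Real.log X := by
    push_cast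
    rw [Real.log_mul (by norm_num) (by linarith)]; linarith
  have a2 : Real.log (2 * n) ≤ (A + 1) * Real.log X := by
    rw [Real.log_mul (by norm_num) (by linarith)]; linarith
  have a3 : Real.log (X + 1) ≤ 2 * Real.log X := by
    rw [← Real.log_rpow X0, Real.rpow_two]
    exact Real.log_le_log (by linarith) (by nlinarith)
  have u1 : √X ≤ (X : ℝ) ^ (1 - κ) := by
    rw [Real.sqrt_eq_rpow]
    exact Real.rpow_le_rpow_of_exponent_le (by linarith) (by linarith)
  refine absurd (num X0 l1 (Real.one_le_rpow (by linarith) (by linarith)) (by positivity) hC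
    (Nat.cast_nonneg A) h1 a3 a2 (h2.trans (by gcongr)) (hlt.le.trans u1) u1 ?_ ?_) (not_le.2 h3)
  · refine le_trans ?_ (hl X (by linarith))
    nlinarith
  · rw [← Real.rpow_add X0, ← Real.rpow_add X0]
    ring_nf
    simp

end Pool.Agent.P.MP_c76d8c_an.AL
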